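import Mathlib
import Pool.Agent.H.MP_412c32_gt.A

open Set Filter Topology Cardinal

namespace Pool.Agent.Results.MP_412c32_gt.Counter

theorem result : ∃ (G : Type) (_ : Group G) (t : TopologicalSpace G),
    IsTopologicalGroup G ∧ TopologicalSpace.MetrizableSpace G ∧
    TopologicalSpace.SeparableSpace G ∧ ¬ DiscreteTopology G ∧
    ∃ S : Set (ℕ → G), #S = 1 ∧
      IsLeast {s : TopologicalSpace G | @IsTopologicalGroup G s _ ∧ @T2Space G s ∧
        ∀ u ∈ S, Tendsto u atTop (@nhds G s 1)} t := by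
  refine ⟨H.MP_412c32_gt.G, inferInstance, inferInstance, inferInstance, inferInstance,
    inferInstance, H.MP_412c32_gt.not_discrete, {H.MP_412c32_gt.θ}, ?_,
    ⟨inferInstance, inferInstance, ?_⟩, ?_⟩
  · exact mk_singleton _
  · rintro _ rfl
    exact H.MP_412c32_gt.θ_null
  · rintro s ⟨hs, -, h⟩
    exact H.MP_412c32_gt.least s hs (h _ rfl)

end Pool.Agent.Results.MP_412c32_gt.Counter
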