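import Mathlib

open Set Filter Topology Cardinal

namespace Pool.Agent.Results.MP_412c32_gt.UpperDom

theorem result (G : Type) [Group G] [t : TopologicalSpace G] [IsTopologicalGroup G]
    [TopologicalSpace.MetrizableSpace G] [Countable G]
    (D : Set (ℕ → ℕ)) (hD : ∀ f : ℕ → ℕ, ∃ g ∈ D, ∀ᶠ n in atTop, f n ≤ g n) :
    ∃ S : Set (ℕ → G), #S ≤ #D ∧
      IsLeast {s : TopologicalSpace G | @IsTopologicalGroup G s _ ∧ @T2Space G s ∧
        ∀ u ∈ S, Tendsto u atTop (@nhds G s 1)} t := by
  classical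
  obtain ⟨U, hU⟩ := (𝓝 (1 : G)).exists_antitone_basis
  obtain ⟨e, he⟩ := exists_surjective_nat G
  let lev : G → ℕ := fun x => if h : ∃ m, x ∉ U m then Nat.find h else 0
  have hlev : ∀ x n, x ∉ U n → lev x ≤ n := fun x n h => by
    have h' : ∃ m, x ∉ U m := ⟨n, h⟩
    simp only [lev, dif_pos h']
    exact Nat.find_min' h' h
  have hlev' : ∀ x n, x ≠ 1 → x ∈ U n → n ≤ lev x := fun x n h1 h => by
    have h' : ∃ m, x ∉ U m := by
      obtain ⟨m, -, hm⟩ := hU.1.mem_iff.1 (isOpen_compl_singleton.mem_nhds h1.symm)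
      exact ⟨m, fun h => hm h rfl⟩
    simp only [lev, dif_pos h']
    by_contra hlt
    exact Nat.find_spec h' (hU.antitone (not_le.1 hlt).le h)
  let u : (ℕ → ℕ) → ℕ → G := fun g i => if i ≤ g (lev (e i)) then e i else 1
  refine ⟨u '' D, mk_image_le, ⟨inferInstance, inferInstance, ?_⟩, ?_⟩
  · rintro _ ⟨g, -, rfl⟩
    refine hU.1.tendsto_right_iff.2 fun n _ => ?_
    filter_upwards [eventually_gt_atTop ((Finset.range (n + 1)).sup g)] with i hi
    simp only [u]
    split_ifs with h
    · by_contra h'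
      exact absurd (h.trans (Finset.le_sup (f := g)
        (Finset.mem_range.2 (Nat.lt_succ_of_le (hlev _ _ h'))))) (not_le.2 hi)
    · exact mem_of_mem_nhds (hU.1.mem_of_mem trivial)
  · have key : ∀ F : Filter G, pure 1 ≤ F → (∀ v ∈ u '' D, Tendsto v atTop F) →
        𝓝 (1 : G) ≤ F := by
      intro F hF hS W hW
      by_contra hcon
      have : ∀ n, ∃ i, e i ∈ U n ∧ e i ∉ W := fun n => by
        by_contra h
        push Not at h
        refine hcon (mem_of_superset (hU.1.mem_of_mem (i := n) trivial) fun x hx => ?_)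
        obtain ⟨i, rfl⟩ := he x
        exact h i hx
      choose x hx hx' using this
      have hne : ∀ n, e (x n) ≠ 1 := fun n h => hx' n (h ▸ hF hW)
      obtain ⟨g, hg, hfg⟩ := hD fun m => (Finset.range (m + 1)).sup x
      obtain ⟨N, hN⟩ := eventually_atTop.1 hfg
      obtain ⟨M, hM⟩ := eventually_atTop.1 (hS _ ⟨g, hg, rfl⟩ hW)
      have hfin : ((e '' Iio M) \ {1}).Finite := ((finite_Iio M).image e).sdiff
      obtain ⟨m, -, hm⟩ := hU.1.mem_iff.1 (hfin.isClosed.isOpen_compl.mem_nhds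
        (fun h => h.2 rfl))
      have h1 := hlev' _ _ (hne (max N m)) (hx (max N m))
      have h2 : x (max N m) ≤ g (lev (e (x (max N m)))) :=
        (Finset.le_sup (f := x) (Finset.mem_range.2 (Nat.lt_succ_of_le h1))).trans
          (hN _ ((le_max_left _ _).trans h1))
      refine hm (hU.antitone (le_max_right N m) (hx (max N m))) ⟨⟨_, ?_, rfl⟩, hne _⟩
      by_contra h3
      have h4 : u g (x (max N m)) ∈ W := hM _ (not_lt.1 h3)
      simp only [u, if_pos h2] at h4
      exact hx' _ h4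
    rintro s ⟨hs, -, hS⟩
    have := @continuous_of_continuousAt_one G t _ _ G (G →* G) _ s
      (@IsTopologicalGroup.toContinuousMul G s _ hs) _ _ (MonoidHom.id G)
      (key _ (@pure_le_nhds G s 1) hS)
    exact continuous_id_iff_le.1 this

end Pool.Agent.Results.MP_412c32_gt.UpperDom
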